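import Pool.Agent.R645.NE.Size

set_option autoImplicit false

namespace Pool.Agent.Results.MP_3b7dc8_lc.DoublyExpSmall

open Pool.Agent.R645.NE

/-- For every `n ≥ 1` there is an instance of size at most `2000 (n + 1) ^ 3` which has a
constrained stationary `ε`-Nash equilibrium, but every such equilibrium uses a positive probability
that is at most `2 ^ (-2 ^ n)`.  In particular Q1 is false. -/
theorem result :
    (∀ n : ℕ, 1 ≤ n →
      ∃ (Pl V : Type) (_ : Fintype Pl) (_ : Fintype V) (G : Game Pl V) (x y : Pl → ℚ) (ε : ℚ),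
        0 < ε ∧ G.inputSize x y ε ≤ 2000 * (n + 1) ^ 3 ∧ (∃ σ, G.IsCNE ε x y σ) ∧
          ∀ σ, G.IsCNE ε x y σ →
            ∃ v i u, G.kind v = Kind.player i ∧ 0 < σ v u ∧ σ v u ≤ (1 / 2) ^ 2 ^ n) ∧
    ¬ Q1 :=
  ⟨main_games, not_Q1⟩

end Pool.Agent.Results.MP_3b7dc8_lc.DoublyExpSmall
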