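import Mathlib

set_option autoImplicit false

/-!
# Constrained stationary `ε`-Nash equilibria may need doubly exponentially small probabilities
-/

namespace Pool.Agent.Results.MP_3b7dc8_lc.TinyProbability

open Classical Finset

/-- Who moves at a vertex: a player, chance, or nobody (terminal vertex). -/
inductive Kind (I : Type)
  | player (i : I)
  | chance
  | terminal

/-- A turn-based stochastic game on a finite directed graph with player set `I` and vertex set
`V`: at a player vertex the owner chooses an out-neighbour, at a chance vertex the out-neighbour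
is drawn with the rational probabilities `prob`, at a terminal vertex the play ends with rational
rewards in `[0,1]`. -/
structure Game (I V : Type) where
  kind : V → Kind I
  /-- out-neighbours -/
  out : V → Finset V
  out_nonempty : ∀ u, kind u ≠ Kind.terminal → (out u).Nonempty
  prob : V → V → ℚ
  prob_nonneg : ∀ u v, 0 ≤ prob u v
  prob_sum : ∀ u, kind u = Kind.chance → ∑ v ∈ out u, prob u v = 1
  reward : V → I → ℚ
  reward_mem : ∀ t i, 0 ≤ reward t i ∧ reward t i ≤ 1
  init : V

section Defs

variable {I V : Type}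

/-- `f` is a probability distribution on the finite set `S`. -/
def IsDist (S : Finset V) (f : V → ℝ) : Prop :=
  (∀ v, 0 ≤ f v) ∧ (∀ v, v ∉ S → f v = 0) ∧ ∑ v ∈ S, f v = 1

/-- The probability of moving from `u` to `v` after the history `h` (the list of the vertices
visited before `u`), when the players behave according to `ρ`. -/
noncomputable def trans (G : Game I V) (ρ : List V → V → V → ℝ) (h : List V) (u v : V) : ℝ :=
  match G.kind u with
  | Kind.player _ => ρ h u v
  | Kind.chance => G.prob u v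
  | Kind.terminal => 0

/-- Expected reward of player `i` within `n` further steps from the vertex `u` with history `h`
(`0` if no terminal vertex has been reached by then). -/
noncomputable def pay (G : Game I V) (i : I) (ρ : List V → V → V → ℝ) :
    ℕ → List V → V → ℝ
  | 0, _, u => if G.kind u = Kind.terminal then (G.reward u i : ℝ) else 0
  | n + 1, h, u => if G.kind u = Kind.terminal then (G.reward u i : ℝ) else
      ∑ v ∈ G.out u, trans G ρ h u v * pay G i ρ n (h ++ [u]) v

/-- Expected payoff of player `i`: the reward of the terminal vertex reached, or `0` if none is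
reached (the limit, equivalently the supremum, of the expected rewards within `n` steps). -/
noncomputable def payoff (G : Game I V) (i : I) (ρ : List V → V → V → ℝ) : ℝ :=
  ⨆ n : ℕ, pay G i ρ n [] G.init

/-- `σ` is a stationary strategy profile: a distribution on the out-neighbours at every player
vertex. -/
def IsProfile (G : Game I V) (σ : V → V → ℝ) : Prop :=
  ∀ u i, G.kind u = Kind.player i → IsDist (G.out u) (σ u)

/-- `τ` is a (history-dependent, randomised) strategy of player `i`. -/
def IsStrategy (G : Game I V) (i : I) (τ : List V → V → V → ℝ) : Prop :=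
  ∀ h u, G.kind u = Kind.player i → IsDist (G.out u) (τ h u)

/-- The behaviour in which player `i` deviates from the stationary profile `σ` to `τ`. -/
noncomputable def deviate (G : Game I V) (i : I) (σ : V → V → ℝ) (τ : List V → V → V → ℝ) :
    List V → V → V → ℝ :=
  fun h u => if G.kind u = Kind.player i then τ h u else σ u

/-- `σ` is a stationary `ε`-Nash equilibrium: no player gains more than `ε` by a unilateral
deviation (to any history-dependent strategy). -/
def IsEpsNE (G : Game I V) (ε : ℚ) (σ : V → V → ℝ) : Prop :=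
  IsProfile G σ ∧ ∀ i τ, IsStrategy G i τ →
    payoff G i (deviate G i σ τ) ≤ payoff G i (fun _ => σ) + ε

/-- The expected payoffs of `σ` satisfy the constraints `x ≤ 𝔼(σ) ≤ y`. -/
def Satisfies (G : Game I V) (x y : I → ℚ) (σ : V → V → ℝ) : Prop :=
  ∀ i, (x i : ℝ) ≤ payoff G i (fun _ => σ) ∧ payoff G i (fun _ => σ) ≤ y i

/-- `σ` has fixed-point size `L`: every probability is an integer multiple of `2^(-L)`. -/
def HasFixedPointSize (G : Game I V) (L : ℕ) (σ : V → V → ℝ) : Prop :=
  ∀ u i, G.kind u = Kind.player i → ∀ v ∈ G.out u, ∃ z : ℕ, σ u v = z / 2 ^ L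

/-- Binary length of a rational number. -/
def bits (q : ℚ) : ℕ := Nat.size q.num.natAbs + Nat.size q.den + 1

/-- The input size `N` of an instance: all data written out in tables (adjacency matrix, all
probabilities, all rewards, constraint vectors, `ε`) in binary. -/
def inputSize [Fintype I] [Fintype V] (G : Game I V) (x y : I → ℚ) (ε : ℚ) : ℕ :=
  Fintype.card I + Fintype.card V + Fintype.card V * Fintype.card V +
    ∑ u, ∑ v, bits (G.prob u v) + ∑ v, ∑ i, bits (G.reward v i) +
    ∑ i, (bits (x i) + bits (y i)) + bits ε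

end Defs

/-! ## Computing payoffs with potentials -/

section Potential

variable {I V : Type} (G : Game I V) (i : I) (ρ : List V → V → V → ℝ)

theorem pay_le (W : V → ℝ) (hW : ∀ u, 0 ≤ W u)
    (hterm : ∀ u, G.kind u = Kind.terminal → (G.reward u i : ℝ) ≤ W u)
    (hnn : ∀ h u v, v ∈ G.out u → 0 ≤ trans G ρ h u v)
    (hsup : ∀ h u, G.kind u ≠ Kind.terminal → ∑ v ∈ G.out u, trans G ρ h u v * W v ≤ W u) :
    ∀ n h u, pay G i ρ n h u ≤ W u := by
  intro n
  induction n with
  | zero =>
    intro h u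
    unfold pay
    split_ifs with hk
    · exact hterm u hk
    · exact hW u
  | succ n ih =>
    intro h u
    unfold pay
    split_ifs with hk
    · exact hterm u hk
    · refine le_trans (Finset.sum_le_sum fun v hv => ?_) (hsup h u hk)
      exact mul_le_mul_of_nonneg_left (ih _ _) (hnn h u v hv)

theorem payoff_le (W : V → ℝ) (hW : ∀ u, 0 ≤ W u)
    (hterm : ∀ u, G.kind u = Kind.terminal → (G.reward u i : ℝ) ≤ W u)
    (hnn : ∀ h u v, v ∈ G.out u → 0 ≤ trans G ρ h u v)
    (hsup : ∀ h u, G.kind u ≠ Kind.terminal → ∑ v ∈ G.out u, trans G ρ h u v * W v ≤ W u) :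
    payoff G i ρ ≤ W G.init :=
  ciSup_le fun n => pay_le G i ρ W hW hterm hnn hsup n [] G.init

theorem payoff_eq (W : V → ℝ) (dep : V → ℕ) (hW : ∀ u, 0 ≤ W u)
    (hterm : ∀ u, G.kind u = Kind.terminal → W u = (G.reward u i : ℝ))
    (hnn : ∀ h u v, v ∈ G.out u → 0 ≤ trans G ρ h u v)
    (hharm : ∀ h u, G.kind u ≠ Kind.terminal → ∑ v ∈ G.out u, trans G ρ h u v * W v = W u)
    (hdep : ∀ u, G.kind u ≠ Kind.terminal → ∀ v ∈ G.out u, dep v < dep u) :
    payoff G i ρ = W G.init := by
  have h1 := pay_le G i ρ W hW (fun u hu => (hterm u hu).ge) hnn (fun h u hu => (hharm h u hu).le)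
  have h2 : ∀ n h u, dep u ≤ n → pay G i ρ n h u = W u := by
    intro n
    induction n with
    | zero =>
      intro h u hu
      by_cases hk : G.kind u = Kind.terminal
      · unfold pay; rw [if_pos hk, hterm u hk]
      · obtain ⟨v, hv⟩ := G.out_nonempty u hk
        have := hdep u hk v hv
        omega
    | succ n ih =>
      intro h u hu
      unfold pay
      split_ifs with hk
      · rw [hterm u hk]
      · rw [← hharm h u hk]
        refine Finset.sum_congr rfl fun v hv => ?_
        rw [ih _ v (by have := hdep u hk v hv; omega)]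
  refine le_antisymm (ciSup_le fun n => h1 n [] G.init) ?_
  have hb : BddAbove (Set.range fun n => pay G i ρ n [] G.init) := by
    refine ⟨W G.init, ?_⟩
    rintro _ ⟨n, rfl⟩
    exact h1 n [] G.init
  calc W G.init = pay G i ρ (dep G.init) [] G.init := (h2 _ _ _ le_rfl).symm
    _ ≤ _ := le_ciSup hb (dep G.init)

end Potential

/-! ## The instances -/

/-- Types of vertices. -/
inductive Tag
  | u | w | v | dp | dm | A | B | C | X | Y
  deriving DecidableEq

instance : Fintype Tag where
  elems := {Tag.u, Tag.w, Tag.v, Tag.dp, Tag.dm, Tag.A, Tag.B, Tag.C, Tag.X, Tag.Y}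
  complete := by intro x; cases x <;> decide

theorem card_tag : Fintype.card Tag = 10 := rfl

/-- Types of players. -/
inductive PTag
  | z | S | T | Dp | Dm
  deriving DecidableEq

instance : Fintype PTag where
  elems := {PTag.z, PTag.S, PTag.T, PTag.Dp, PTag.Dm}
  complete := by intro x; cases x <;> decide

theorem card_ptag : Fintype.card PTag = 5 := rfl


/-- Vertices: `none` is the initial vertex. -/
abbrev Vx (M : ℕ) : Type := Option (Tag × Fin M)

/-- Players: `none` controls the vertices of type `u`, `w`, `v`. -/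
abbrev Pl (M : ℕ) : Type := Option (PTag × Fin M)

/-- The three types of vertices reached from the initial vertex. -/
def hd : Fin 3 → Tag := ![Tag.u, Tag.dp, Tag.dm]

theorem hd_inj : Function.Injective hd := by decide

section Instance

variable {M : ℕ}

/-- Owners. -/
def kindF : Vx M → Kind (Pl M)
  | none => Kind.chance
  | some (Tag.u, _) => Kind.player none
  | some (Tag.w, _) => Kind.player none
  | some (Tag.v, _) => Kind.player none
  | some (Tag.dp, i) => Kind.player (some (PTag.Dp, i))
  | some (Tag.dm, i) => Kind.player (some (PTag.Dm, i))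
  | some (Tag.A, _) => Kind.terminal
  | some (Tag.B, _) => Kind.terminal
  | some (Tag.C, _) => Kind.terminal
  | some (Tag.X, _) => Kind.terminal
  | some (Tag.Y, _) => Kind.terminal

/-- Out-neighbours. -/
noncomputable def outF : Vx M → Finset (Vx M)
  | none => (univ : Finset (Fin 3 × Fin M)).image fun x => some (hd x.1, x.2)
  | some (Tag.u, i) => {some (Tag.w, i), some (Tag.C, i)}
  | some (Tag.w, i) => {some (Tag.A, i), some (Tag.B, i)}
  | some (Tag.v, i) => {some (Tag.X, i), some (Tag.Y, i)}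
  | some (Tag.dp, i) => {some (Tag.v, i), some (Tag.w, i)}
  | some (Tag.dm, i) => {some (Tag.v, i), some (Tag.w, i)}
  | some (Tag.A, _) => ∅
  | some (Tag.B, _) => ∅
  | some (Tag.C, _) => ∅
  | some (Tag.X, _) => ∅
  | some (Tag.Y, _) => ∅

/-- Chance moves: uniform at the initial vertex. -/
def probF (M : ℕ) : Vx M → Vx M → ℚ
  | none, _ => 1 / (3 * M : ℕ)
  | some _, _ => 0

/-- Rewards. -/
def rewF : Vx M → Pl M → ℚ
  | some (Tag.X, j), some (PTag.z, i) => if j = i then 1 else 0
  | some (Tag.Y, j), some (PTag.z, i) => if j = i then 1 else 0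
  | some (Tag.A, j), some (PTag.S, i) => if (j : ℕ) + 1 = i then 1 else 0
  | some (Tag.C, j), some (PTag.S, i) => if j = i then 1 else 0
  | some (Tag.X, j), some (PTag.T, i) => if j = i then 1 / 2 else 0
  | some (Tag.C, j), some (PTag.T, i) => if j = i then 1 else 0
  | some (Tag.A, j), some (PTag.Dp, i) => if j = i then 1 else 0
  | some (Tag.B, j), some (PTag.Dp, i) => if j = i then 1 / 2 else 0
  | some (Tag.X, j), some (PTag.Dp, i) => if j = i then 1 / 2 else 0
  | some (Tag.A, j), some (PTag.Dm, i) => if j = i then 1 / 2 else 0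
  | some (Tag.B, j), some (PTag.Dm, i) => if j = i then 1 else 0
  | some (Tag.Y, j), some (PTag.Dm, i) => if j = i then 1 / 2 else 0
  | _, _ => 0

theorem rewF_mem (t : Vx M) (i : Pl M) : 0 ≤ rewF t i ∧ rewF t i ≤ 1 := by
  unfold rewF
  split <;> (try split_ifs) <;> norm_num

theorem sum_out_none (f : Vx M → ℝ) : ∑ v ∈ outF (none : Vx M), f v =
    ∑ i, (f (some (Tag.u, i)) + f (some (Tag.dp, i)) + f (some (Tag.dm, i))) := by
  unfold outF
  rw [Finset.sum_image]
  · rw [← Finset.univ_product_univ, Finset.sum_product_right]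
    refine Finset.sum_congr rfl fun i _ => ?_
    rw [Fin.sum_univ_three]
    rfl
  · rintro ⟨a, i⟩ _ ⟨b, j⟩ _ h
    simp only [Option.some.injEq, Prod.mk.injEq] at h
    rw [hd_inj h.1, h.2]

theorem card_out_none : (outF (none : Vx M)).card = 3 * M := by
  unfold outF
  rw [Finset.card_image_of_injective]
  · simp
  · rintro ⟨a, i⟩ ⟨b, j⟩ h
    simp only [Option.some.injEq, Prod.mk.injEq] at h
    rw [hd_inj h.1, h.2]

/-- The game. -/
noncomputable def game (M : ℕ) (hM : 0 < M) : Game (Pl M) (Vx M) where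
  kind := kindF
  out := outF
  out_nonempty := by
    rintro (_ | ⟨t, i⟩) h
    · have := card_out_none (M := M)
      exact Finset.card_pos.mp (by omega)
    · cases t <;> simp [outF, kindF] at h ⊢
  prob := probF M
  prob_nonneg := by
    rintro (_ | _) v
    · simp only [probF]; positivity
    · simp [probF]
  prob_sum := by
    rintro (_ | ⟨t, i⟩) h
    · simp only [probF]
      rw [Finset.sum_const, card_out_none, nsmul_eq_mul]
      have : ((3 * M : ℕ) : ℚ) ≠ 0 := by positivity
      field_simp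
    · cases t <;> simp [kindF] at h
  reward := rewF
  reward_mem := rewF_mem
  init := none

/-- The value of each vertex when the success probabilities are `p`, `q`, `t` and the values of the
vertices of type `dp`, `dm` are `a`, `b`; `r` gives the rewards. -/
noncomputable def value (r : Vx M → ℝ) (p q t a b : Fin M → ℝ) : Vx M → ℝ
  | some (Tag.w, i) => q i * r (some (Tag.A, i)) + (1 - q i) * r (some (Tag.B, i))
  | some (Tag.v, i) => t i * r (some (Tag.X, i)) + (1 - t i) * r (some (Tag.Y, i))
  | some (Tag.u, i) => p i * (q i * r (some (Tag.A, i)) + (1 - q i) * r (some (Tag.B, i))) +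
      (1 - p i) * r (some (Tag.C, i))
  | some (Tag.dp, i) => a i
  | some (Tag.dm, i) => b i
  | some (Tag.A, i) => r (some (Tag.A, i))
  | some (Tag.B, i) => r (some (Tag.B, i))
  | some (Tag.C, i) => r (some (Tag.C, i))
  | some (Tag.X, i) => r (some (Tag.X, i))
  | some (Tag.Y, i) => r (some (Tag.Y, i))
  | none => 1 / (3 * M) * ∑ i, (p i * (q i * r (some (Tag.A, i)) + (1 - q i) * r (some (Tag.B, i))) +
      (1 - p i) * r (some (Tag.C, i)) + a i + b i)

/-- Depth of a vertex. -/
def depth : Vx M → ℕ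
  | none => 3
  | some (Tag.u, _) => 2
  | some (Tag.dp, _) => 2
  | some (Tag.dm, _) => 2
  | some (Tag.w, _) => 1
  | some (Tag.v, _) => 1
  | some (_, _) => 0

/-! ### Payoffs of stationary profiles -/

/-- Success probabilities and stay probabilities of a profile. -/
noncomputable def pr (σ : Vx M → Vx M → ℝ) (k : Fin M) : ℝ := σ (some (Tag.u, k)) (some (Tag.w, k))
/-- Success probability at `w`. -/
noncomputable def qr (σ : Vx M → Vx M → ℝ) (k : Fin M) : ℝ := σ (some (Tag.w, k)) (some (Tag.A, k))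
/-- Success probability at `v`. -/
noncomputable def tr (σ : Vx M → Vx M → ℝ) (k : Fin M) : ℝ := σ (some (Tag.v, k)) (some (Tag.X, k))
/-- Stay probability at `dp`. -/
noncomputable def sp (σ : Vx M → Vx M → ℝ) (k : Fin M) : ℝ := σ (some (Tag.dp, k)) (some (Tag.v, k))
/-- Stay probability at `dm`. -/
noncomputable def sm (σ : Vx M → Vx M → ℝ) (k : Fin M) : ℝ := σ (some (Tag.dm, k)) (some (Tag.v, k))

theorem dist_pair {V : Type} [DecidableEq V] {a b : V} (hab : a ≠ b) {f : V → ℝ} (h : IsDist ({a, b} : Finset V) f) :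
    f b = 1 - f a ∧ 0 ≤ f a ∧ f a ≤ 1 := by
  obtain ⟨h1, _, h3⟩ := h
  rw [Finset.sum_pair hab] at h3
  refine ⟨by linarith, h1 a, by linarith [h1 b]⟩

section Prof

variable {hM : 0 < M} {σ : Vx M → Vx M → ℝ} (hσ : IsProfile (game M hM) σ)

include hσ

theorem pr_spec (k : Fin M) : σ (some (Tag.u, k)) (some (Tag.C, k)) = 1 - pr σ k ∧
    0 ≤ pr σ k ∧ pr σ k ≤ 1 :=
  dist_pair (by simp) (hσ (some (Tag.u, k)) none rfl)

theorem qr_spec (k : Fin M) : σ (some (Tag.w, k)) (some (Tag.B, k)) = 1 - qr σ k ∧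
    0 ≤ qr σ k ∧ qr σ k ≤ 1 :=
  dist_pair (by simp) (hσ (some (Tag.w, k)) none rfl)

theorem tr_spec (k : Fin M) : σ (some (Tag.v, k)) (some (Tag.Y, k)) = 1 - tr σ k ∧
    0 ≤ tr σ k ∧ tr σ k ≤ 1 :=
  dist_pair (by simp) (hσ (some (Tag.v, k)) none rfl)

theorem sp_spec (k : Fin M) : σ (some (Tag.dp, k)) (some (Tag.w, k)) = 1 - sp σ k ∧
    0 ≤ sp σ k ∧ sp σ k ≤ 1 :=
  dist_pair (by simp) (hσ (some (Tag.dp, k)) (some (PTag.Dp, k)) rfl)

theorem sm_spec (k : Fin M) : σ (some (Tag.dm, k)) (some (Tag.w, k)) = 1 - sm σ k ∧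
    0 ≤ sm σ k ∧ sm σ k ≤ 1 :=
  dist_pair (by simp) (hσ (some (Tag.dm, k)) (some (PTag.Dm, k)) rfl)

theorem payoff_formula (j : Pl M) : payoff (game M hM) j (fun _ => σ) =
    1 / (3 * M) * ∑ k, (pr σ k * (qr σ k * (rewF (some (Tag.A, k)) j : ℝ) +
        (1 - qr σ k) * (rewF (some (Tag.B, k)) j : ℝ)) +
      (1 - pr σ k) * (rewF (some (Tag.C, k)) j : ℝ) +
      (sp σ k * (tr σ k * (rewF (some (Tag.X, k)) j : ℝ) +
        (1 - tr σ k) * (rewF (some (Tag.Y, k)) j : ℝ)) +
        (1 - sp σ k) * (qr σ k * (rewF (some (Tag.A, k)) j : ℝ) +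
        (1 - qr σ k) * (rewF (some (Tag.B, k)) j : ℝ))) +
      (sm σ k * (tr σ k * (rewF (some (Tag.X, k)) j : ℝ) +
        (1 - tr σ k) * (rewF (some (Tag.Y, k)) j : ℝ)) +
        (1 - sm σ k) * (qr σ k * (rewF (some (Tag.A, k)) j : ℝ) +
        (1 - qr σ k) * (rewF (some (Tag.B, k)) j : ℝ)))) := by
  set r : Vx M → ℝ := fun v => (rewF v j : ℝ) with hr
  have hr0 : ∀ v, 0 ≤ r v := fun v => by
    have := (rewF_mem v j).1
    simp only [hr]; exact_mod_cast this
  set a : Fin M → ℝ := fun k => sp σ k * (tr σ k * r (some (Tag.X, k)) +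
        (1 - tr σ k) * r (some (Tag.Y, k))) +
        (1 - sp σ k) * (qr σ k * r (some (Tag.A, k)) +
        (1 - qr σ k) * r (some (Tag.B, k))) with ha
  set b : Fin M → ℝ := fun k => sm σ k * (tr σ k * r (some (Tag.X, k)) +
        (1 - tr σ k) * r (some (Tag.Y, k))) +
        (1 - sm σ k) * (qr σ k * r (some (Tag.A, k)) +
        (1 - qr σ k) * r (some (Tag.B, k))) with hb
  have hlin : ∀ x y z : ℝ, 0 ≤ x → x ≤ 1 → 0 ≤ y → 0 ≤ z → 0 ≤ x * y + (1 - x) * z :=
    fun x y z h1 h2 h3 h4 => add_nonneg (mul_nonneg h1 h3) (mul_nonneg (by linarith) h4)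
  have hw0 : ∀ k, 0 ≤ qr σ k * r (some (Tag.A, k)) + (1 - qr σ k) * r (some (Tag.B, k)) :=
    fun k => hlin _ _ _ (qr_spec hσ k).2.1 (qr_spec hσ k).2.2 (hr0 _) (hr0 _)
  have hv0 : ∀ k, 0 ≤ tr σ k * r (some (Tag.X, k)) + (1 - tr σ k) * r (some (Tag.Y, k)) :=
    fun k => hlin _ _ _ (tr_spec hσ k).2.1 (tr_spec hσ k).2.2 (hr0 _) (hr0 _)
  have ha0 : ∀ k, 0 ≤ a k :=
    fun k => hlin _ _ _ (sp_spec hσ k).2.1 (sp_spec hσ k).2.2 (hv0 k) (hw0 k)
  have hb0 : ∀ k, 0 ≤ b k :=
    fun k => hlin _ _ _ (sm_spec hσ k).2.1 (sm_spec hσ k).2.2 (hv0 k) (hw0 k)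
  have hu0 : ∀ k, 0 ≤ pr σ k * (qr σ k * r (some (Tag.A, k)) + (1 - qr σ k) * r (some (Tag.B, k))) +
      (1 - pr σ k) * r (some (Tag.C, k)) :=
    fun k => hlin _ _ _ (pr_spec hσ k).2.1 (pr_spec hσ k).2.2 (hw0 k) (hr0 _)
  have hMr : (0 : ℝ) < M := by exact_mod_cast hM
  have key := payoff_eq (game M hM) j (fun _ => σ)
    (value r (pr σ) (qr σ) (tr σ) a b) depth ?_ ?_ ?_ ?_ ?_
  · rw [key]
    show value r (pr σ) (qr σ) (tr σ) a b none = _
    simp only [value, ha, hb, hr]
  · -- nonnegativity
    rintro (_ | ⟨t, k⟩)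
    · simp only [value]
      refine mul_nonneg (by positivity) (Finset.sum_nonneg fun k _ => ?_)
      linarith [hu0 k, ha0 k, hb0 k]
    · cases t
      · exact hu0 k
      · exact hw0 k
      · exact hv0 k
      · exact ha0 k
      · exact hb0 k
      all_goals exact hr0 _
  · rintro (_ | ⟨t, k⟩) hk
    · simp [game, kindF] at hk
    · cases t <;> first
        | (simp [game, kindF] at hk; done)
        | rfl
  · rintro h (_ | ⟨t, k⟩) v hv
    · simp only [trans, game, kindF, probF]
      positivity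
    · cases t <;> simp only [trans, game, kindF] <;> first
        | exact (hσ _ _ rfl).1 v
        | exact le_refl _
  · rintro h (_ | ⟨t, k⟩) hk
    · simp only [trans, game, kindF, probF]
      rw [sum_out_none]
      simp only [value]
      rw [Finset.mul_sum]
      refine Finset.sum_congr rfl fun k _ => ?_
      push_cast
      ring
    · cases t
      · simp only [trans, game, kindF, outF]
        rw [Finset.sum_pair (by simp), (pr_spec hσ k).1]
        rfl
      · simp only [trans, game, kindF, outF]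
        rw [Finset.sum_pair (by simp), (qr_spec hσ k).1]
        rfl
      · simp only [trans, game, kindF, outF]
        rw [Finset.sum_pair (by simp), (tr_spec hσ k).1]
        rfl
      · simp only [trans, game, kindF, outF]
        rw [Finset.sum_pair (by simp), (sp_spec hσ k).1]
        rfl
      · simp only [trans, game, kindF, outF]
        rw [Finset.sum_pair (by simp), (sm_spec hσ k).1]
        rfl
      all_goals simp [game, kindF] at hk
  · rintro (_ | ⟨t, k⟩) hk v hv
    · simp only [game, outF, Finset.mem_image] at hv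
      obtain ⟨⟨x, i⟩, _, rfl⟩ := hv
      fin_cases x <;> simp [hd, depth]
    · cases t <;> simp only [game, outF, Finset.mem_insert, Finset.mem_singleton,
        Finset.notMem_empty] at hv <;> (rcases hv with rfl | rfl <;> simp [depth])

theorem payoff_z (i : Fin M) : payoff (game M hM) (some (PTag.z, i)) (fun _ => σ) =
    1 / (3 * M) * (sp σ i + sm σ i) := by
  rw [payoff_formula hσ]
  congr 1
  rw [Finset.sum_eq_single i]
  · simp [rewF]
  · intro k _ hk
    simp [rewF, hk]
  · intro h; exact absurd (mem_univ _) h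

theorem payoff_T (i : Fin M) (h1 : sp σ i = 1) (h2 : sm σ i = 1) :
    payoff (game M hM) (some (PTag.T, i)) (fun _ => σ) =
    1 / (3 * M) * (1 - pr σ i + tr σ i) := by
  rw [payoff_formula hσ]
  congr 1
  rw [Finset.sum_eq_single i]
  · simp [rewF, h1, h2]
    ring
  · intro k _ hk
    simp [rewF, hk]
  · intro h; exact absurd (mem_univ _) h

theorem payoff_S (i : Fin M) (h1 : ∀ k, sp σ k = 1) (h2 : ∀ k, sm σ k = 1) :
    payoff (game M hM) (some (PTag.S, i)) (fun _ => σ) =
    1 / (3 * M) * ((∑ k : Fin M, if (k : ℕ) + 1 = i then pr σ k * qr σ k else 0) +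
      (1 - pr σ i)) := by
  rw [payoff_formula hσ]
  congr 1
  have e1 : (1 - pr σ i) = ∑ k : Fin M, if k = i then (1 - pr σ k) else 0 := by
    rw [Finset.sum_ite_eq' univ i (fun k => 1 - pr σ k), if_pos (mem_univ _)]
  rw [e1, ← Finset.sum_add_distrib]
  refine Finset.sum_congr rfl fun k _ => ?_
  rw [h1 k, h2 k]
  simp only [rewF]
  by_cases ha : (k : ℕ) + 1 = i <;> by_cases hb : k = i <;> simp [ha, hb]

theorem payoff_Dp (i : Fin M) (h2 : sm σ i = 1) :
    payoff (game M hM) (some (PTag.Dp, i)) (fun _ => σ) =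
    1 / (3 * M) * (pr σ i * (1 / 2 + qr σ i / 2) + tr σ i / 2 +
      (sp σ i * (tr σ i / 2) + (1 - sp σ i) * (1 / 2 + qr σ i / 2))) := by
  rw [payoff_formula hσ]
  congr 1
  rw [Finset.sum_eq_single i]
  · simp [rewF, h2]
    ring
  · intro k _ hk
    simp [rewF, hk]
  · intro h; exact absurd (mem_univ _) h

theorem payoff_Dm (i : Fin M) (h2 : sp σ i = 1) :
    payoff (game M hM) (some (PTag.Dm, i)) (fun _ => σ) =
    1 / (3 * M) * (pr σ i * (1 - qr σ i / 2) + (1 - tr σ i) / 2 +
      (sm σ i * ((1 - tr σ i) / 2) + (1 - sm σ i) * (1 - qr σ i / 2))) := by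
  rw [payoff_formula hσ]
  congr 1
  rw [Finset.sum_eq_single i]
  · simp [rewF, h2]
    ring
  · intro k _ hk
    simp [rewF, hk]
  · intro h; exact absurd (mem_univ _) h

theorem payoff_none : payoff (game M hM) none (fun _ => σ) = 0 := by
  rw [payoff_formula hσ]
  have : ∀ v : Vx M, rewF v none = 0 := by
    intro v
    unfold rewF
    split <;> simp_all
  simp [this]

end Prof

/-- The constraint vector `x`. -/
def xs (M : ℕ) : Pl M → ℚ
  | none => 0
  | some (PTag.z, _) => 2 / (3 * M : ℕ)
  | some (PTag.S, i) => if (i : ℕ) = 0 then 1 / (6 * M : ℕ) else 1 / (3 * M : ℕ)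
  | some (PTag.T, _) => 1 / (3 * M : ℕ)
  | some (PTag.Dp, _) => 0
  | some (PTag.Dm, _) => 0

/-- The constraint vector `y`. -/
def ys (M : ℕ) : Pl M → ℚ
  | none => 1
  | some (PTag.z, _) => 2 / (3 * M : ℕ)
  | some (PTag.S, i) => if (i : ℕ) = 0 then 1 / (6 * M : ℕ) else 1 / (3 * M : ℕ)
  | some (PTag.T, _) => 1 / (3 * M : ℕ)
  | some (PTag.Dp, _) => 1
  | some (PTag.Dm, _) => 1

/-- The value of `ε`. -/
def eps (M : ℕ) : ℚ := 1 / (6 * M : ℕ)

/-! ### Every constrained equilibrium is forced -/

/-- The pure strategy of the owner of `dp i` (or `dm i`) that always moves to `w i`. -/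
noncomputable def goW (i : Fin M) : List (Vx M) → Vx M → Vx M → ℝ :=
  fun _ _ v => if v = some (Tag.w, i) then 1 else 0

theorem kind_Dp {u : Vx M} {i : Fin M} (h : kindF u = Kind.player (some (PTag.Dp, i))) :
    u = some (Tag.dp, i) := by
  rcases u with _ | ⟨t, k⟩
  · simp [kindF] at h
  · cases t <;> simp [kindF] at h
    rw [h]

theorem kind_Dm {u : Vx M} {i : Fin M} (h : kindF u = Kind.player (some (PTag.Dm, i))) :
    u = some (Tag.dm, i) := by
  rcases u with _ | ⟨t, k⟩
  · simp [kindF] at h
  · cases t <;> simp [kindF] at h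
    rw [h]

theorem goW_dist (i : Fin M) (h : List (Vx M)) (u : Vx M) :
    IsDist ({some (Tag.v, i), some (Tag.w, i)} : Finset (Vx M)) (goW i h u) := by
  refine ⟨fun v => ?_, fun v hv => ?_, ?_⟩
  · unfold goW; split_ifs <;> norm_num
  · unfold goW
    rw [if_neg]
    rintro rfl
    simp at hv
  · rw [Finset.sum_pair (by simp)]
    simp [goW]

theorem forced_Dp {hM : 0 < M} {σ : Vx M → Vx M → ℝ}
    (hNE : IsEpsNE (game M hM) (eps M) σ) (i : Fin M) (h1 : sp σ i = 1) (h2 : sm σ i = 1) :
    qr σ i ≤ tr σ i := by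
  obtain ⟨hσ, hdev⟩ := hNE
  have hMr : (0 : ℝ) < M := by exact_mod_cast hM
  have hstr : IsStrategy (game M hM) (some (PTag.Dp, i)) (goW i) := by
    intro h u hu
    have := kind_Dp hu
    subst this
    exact goW_dist i h _
  have key := hdev _ _ hstr
  set σ' : Vx M → Vx M → ℝ := fun u =>
    if (game M hM).kind u = Kind.player (some (PTag.Dp, i)) then goW i [] u else σ u with hσ'
  have e1 : deviate (game M hM) (some (PTag.Dp, i)) σ (goW i) = fun _ => σ' := rfl
  rw [e1] at key
  have hprof : IsProfile (game M hM) σ' := by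
    intro u j hu
    simp only [hσ']
    by_cases hc : (game M hM).kind u = Kind.player (some (PTag.Dp, i))
    · rw [if_pos hc]
      have := kind_Dp hc
      subst this
      exact goW_dist i [] _
    · rw [if_neg hc]
      exact hσ u j hu
  have a1 : pr σ' i = pr σ i := by simp [pr, hσ', game, kindF]
  have a2 : qr σ' i = qr σ i := by simp [qr, hσ', game, kindF]
  have a3 : tr σ' i = tr σ i := by simp [tr, hσ', game, kindF]
  have a4 : sp σ' i = 0 := by simp [sp, hσ', game, kindF, goW]
  have a5 : sm σ' i = sm σ i := by simp [sm, hσ', game, kindF]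
  rw [payoff_Dp hprof i (by rw [a5]; exact h2), payoff_Dp hσ i h2, a1, a2, a3, a4, h1] at key
  have e2 : ((eps M : ℚ) : ℝ) = 1 / (3 * M) * (1 / 2) := by
    unfold eps; push_cast; field_simp; norm_num
  rw [e2, ← mul_add] at key
  have h3 := le_of_mul_le_mul_left key (by positivity)
  linarith

theorem forced_Dm {hM : 0 < M} {σ : Vx M → Vx M → ℝ}
    (hNE : IsEpsNE (game M hM) (eps M) σ) (i : Fin M) (h1 : sp σ i = 1) (h2 : sm σ i = 1) :
    tr σ i ≤ qr σ i := by
  obtain ⟨hσ, hdev⟩ := hNE
  have hMr : (0 : ℝ) < M := by exact_mod_cast hM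
  have hstr : IsStrategy (game M hM) (some (PTag.Dm, i)) (goW i) := by
    intro h u hu
    have := kind_Dm hu
    subst this
    exact goW_dist i h _
  have key := hdev _ _ hstr
  set σ' : Vx M → Vx M → ℝ := fun u =>
    if (game M hM).kind u = Kind.player (some (PTag.Dm, i)) then goW i [] u else σ u with hσ'
  have e1 : deviate (game M hM) (some (PTag.Dm, i)) σ (goW i) = fun _ => σ' := rfl
  rw [e1] at key
  have hprof : IsProfile (game M hM) σ' := by
    intro u j hu
    simp only [hσ']
    by_cases hc : (game M hM).kind u = Kind.player (some (PTag.Dm, i))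
    · rw [if_pos hc]
      have := kind_Dm hc
      subst this
      exact goW_dist i [] _
    · rw [if_neg hc]
      exact hσ u j hu
  have a1 : pr σ' i = pr σ i := by simp [pr, hσ', game, kindF]
  have a2 : qr σ' i = qr σ i := by simp [qr, hσ', game, kindF]
  have a3 : tr σ' i = tr σ i := by simp [tr, hσ', game, kindF]
  have a4 : sm σ' i = 0 := by simp [sm, hσ', game, kindF, goW]
  have a5 : sp σ' i = sp σ i := by simp [sp, hσ', game, kindF]
  rw [payoff_Dm hprof i (by rw [a5]; exact h1), payoff_Dm hσ i h1, a1, a2, a3, a4, h2] at key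
  have e2 : ((eps M : ℚ) : ℝ) = 1 / (3 * M) * (1 / 2) := by
    unfold eps; push_cast; field_simp; norm_num
  rw [e2, ← mul_add] at key
  have h3 := le_of_mul_le_mul_left key (by positivity)
  linarith

theorem eq_of_satisfies {hM : 0 < M} {σ : Vx M → Vx M → ℝ}
    (hs : Satisfies (game M hM) (xs M) (ys M) σ) (j : Pl M) (hj : xs M j = ys M j) :
    payoff (game M hM) j (fun _ => σ) = (xs M j : ℝ) := by
  have := hs j
  rw [← hj] at this
  exact le_antisymm this.2 this.1

theorem forced {hM : 0 < M} {σ : Vx M → Vx M → ℝ}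
    (hNE : IsEpsNE (game M hM) (eps M) σ) (hs : Satisfies (game M hM) (xs M) (ys M) σ) :
    ∀ i : Fin M, pr σ i = (1 / 2 : ℝ) ^ (2 ^ (i : ℕ)) := by
  have hσ := hNE.1
  have hMr : (0 : ℝ) < M := by exact_mod_cast hM
  have hstay : ∀ i, sp σ i = 1 ∧ sm σ i = 1 := by
    intro i
    have h1 := eq_of_satisfies hs (some (PTag.z, i)) rfl
    rw [payoff_z hσ] at h1
    have h2 : ((xs M (some (PTag.z, i)) : ℚ) : ℝ) = 1 / (3 * M) * 2 := by
      simp only [xs]; push_cast; ring
    rw [h2] at h1
    have h3 := mul_left_cancel₀ (by positivity) h1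
    have h4 := (sp_spec hσ i).2.2
    have h5 := (sm_spec hσ i).2.2
    constructor <;> linarith
  have htr : ∀ i, tr σ i = pr σ i := by
    intro i
    have h1 := eq_of_satisfies hs (some (PTag.T, i)) rfl
    rw [payoff_T hσ i (hstay i).1 (hstay i).2] at h1
    have h2 : ((xs M (some (PTag.T, i)) : ℚ) : ℝ) = 1 / (3 * M) * 1 := by
      simp only [xs]; push_cast; ring
    rw [h2] at h1
    have h3 := mul_left_cancel₀ (by positivity) h1
    linarith
  have hqr : ∀ i, qr σ i = pr σ i := by
    intro i
    rw [← htr i]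
    exact le_antisymm (forced_Dp hNE i (hstay i).1 (hstay i).2)
      (forced_Dm hNE i (hstay i).1 (hstay i).2)
  have hS : ∀ i, payoff (game M hM) (some (PTag.S, i)) (fun _ => σ) =
      1 / (3 * M) * ((∑ k : Fin M, if (k : ℕ) + 1 = i then pr σ k * qr σ k else 0) +
      (1 - pr σ i)) := fun i => payoff_S hσ i (fun k => (hstay k).1) (fun k => (hstay k).2)
  rintro ⟨i, hi⟩
  induction i with
  | zero =>
    have h1 := eq_of_satisfies hs (some (PTag.S, ⟨0, hi⟩)) rfl
    rw [hS] at h1
    have h2 : ((xs M (some (PTag.S, ⟨0, hi⟩)) : ℚ) : ℝ) = 1 / (3 * M) * (1 / 2) := by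
      simp only [xs]; push_cast; field_simp; norm_num
    rw [h2] at h1
    have h3 := mul_left_cancel₀ (by positivity) h1
    have h4 : (∑ k : Fin M, if (k : ℕ) + 1 = ((⟨0, hi⟩ : Fin M) : ℕ) then pr σ k * qr σ k else 0) = 0 := by
      refine Finset.sum_eq_zero fun k _ => ?_
      rw [if_neg (by simp)]
    rw [h4] at h3
    simp only [pow_zero, pow_one]
    linarith
  | succ n ih =>
    have hn : n < M := by omega
    have h1 := eq_of_satisfies hs (some (PTag.S, ⟨n + 1, hi⟩)) rfl
    rw [hS] at h1
    have h2 : ((xs M (some (PTag.S, ⟨n + 1, hi⟩)) : ℚ) : ℝ) = 1 / (3 * M) * 1 := by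
      simp only [xs]
      rw [if_neg (by simp)]
      push_cast; ring
    rw [h2] at h1
    have h3 := mul_left_cancel₀ (by positivity) h1
    have h4 : (∑ k : Fin M, if (k : ℕ) + 1 = ((⟨n + 1, hi⟩ : Fin M) : ℕ) then pr σ k * qr σ k else 0)
        = pr σ ⟨n, hn⟩ * qr σ ⟨n, hn⟩ := by
      rw [Finset.sum_eq_single ⟨n, hn⟩]
      · simp
      · intro k _ hk
        rw [if_neg]
        intro h
        apply hk
        apply Fin.ext
        simp only at h ⊢
        omega
      · intro h; exact absurd (mem_univ _) h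
    rw [h4, hqr, ih hn] at h3
    have h5 : (1 / 2 : ℝ) ^ (2 ^ (n + 1)) = (1 / 2 : ℝ) ^ (2 ^ n) * (1 / 2 : ℝ) ^ (2 ^ n) := by
      rw [← pow_add]; congr 1; rw [pow_succ]; ring
    simp only at h3 ⊢
    rw [h5]
    linarith

/-! ### The equilibrium -/

/-- The probability `2^(-2^k)`. -/
noncomputable def PP (k : Fin M) : ℝ := (1 / 2 : ℝ) ^ (2 ^ (k : ℕ))

theorem PP_pos (k : Fin M) : 0 < PP k := by unfold PP; positivity

theorem PP_le_one (k : Fin M) : PP k ≤ 1 := pow_le_one₀ (by norm_num) (by norm_num)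

/-- A distribution on a pair. -/
noncomputable def two {V : Type} (a b : V) (p : ℝ) (v : V) : ℝ :=
  if v = a then p else if v = b then 1 - p else 0

theorem two_dist {V : Type} [DecidableEq V] {a b : V} (hab : a ≠ b) {p : ℝ} (h0 : 0 ≤ p)
    (h1 : p ≤ 1) : IsDist ({a, b} : Finset V) (two a b p) := by
  refine ⟨fun v => ?_, fun v hv => ?_, ?_⟩
  · unfold two; split_ifs <;> linarith
  · simp only [Finset.mem_insert, Finset.mem_singleton, not_or] at hv
    unfold two
    rw [if_neg hv.1, if_neg hv.2]
  · rw [Finset.sum_pair hab]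
    unfold two
    rw [if_pos rfl, if_neg hab.symm, if_pos rfl]
    ring

/-- The equilibrium profile. -/
noncomputable def sol : Vx M → Vx M → ℝ
  | some (Tag.u, k) => two (some (Tag.w, k)) (some (Tag.C, k)) (PP k)
  | some (Tag.w, k) => two (some (Tag.A, k)) (some (Tag.B, k)) (PP k)
  | some (Tag.v, k) => two (some (Tag.X, k)) (some (Tag.Y, k)) (PP k)
  | some (Tag.dp, k) => two (some (Tag.v, k)) (some (Tag.w, k)) 1
  | some (Tag.dm, k) => two (some (Tag.v, k)) (some (Tag.w, k)) 1
  | _ => fun _ => 0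

theorem sol_profile (hM : 0 < M) : IsProfile (game M hM) (sol (M := M)) := by
  rintro (_ | ⟨t, k⟩) j hu
  · simp [game, kindF] at hu
  · cases t
    · exact two_dist (by simp) (PP_pos k).le (PP_le_one k)
    · exact two_dist (by simp) (PP_pos k).le (PP_le_one k)
    · exact two_dist (by simp) (PP_pos k).le (PP_le_one k)
    · exact two_dist (by simp) zero_le_one le_rfl
    · exact two_dist (by simp) zero_le_one le_rfl
    all_goals simp [game, kindF] at hu

theorem sol_pr (k : Fin M) : pr (sol (M := M)) k = PP k := by simp [pr, sol, two]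
theorem sol_qr (k : Fin M) : qr (sol (M := M)) k = PP k := by simp [qr, sol, two]
theorem sol_tr (k : Fin M) : tr (sol (M := M)) k = PP k := by simp [tr, sol, two]
theorem sol_sp (k : Fin M) : sp (sol (M := M)) k = 1 := by simp [sp, sol, two]
theorem sol_sm (k : Fin M) : sm (sol (M := M)) k = 1 := by simp [sm, sol, two]

theorem sol_satisfies (hM : 0 < M) : Satisfies (game M hM) (xs M) (ys M) (sol (M := M)) := by
  have hσ := sol_profile hM
  have hMr : (0 : ℝ) < M := by exact_mod_cast hM
  have hM1 : (1 : ℝ) ≤ M := by exact_mod_cast hM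
  have hc : (0 : ℝ) < 1 / (3 * M) := by positivity
  have hc1 : 1 / (3 * (M : ℝ)) ≤ 1 / 3 := by
    rw [div_le_div_iff₀ (by positivity) (by norm_num)]; linarith
  have heq : ∀ j (c : ℝ), ((xs M j : ℚ) : ℝ) = c → ((ys M j : ℚ) : ℝ) = c →
      payoff (game M hM) j (fun _ => sol) = c →
      ((xs M j : ℚ) : ℝ) ≤ payoff (game M hM) j (fun _ => sol) ∧
      payoff (game M hM) j (fun _ => sol) ≤ ((ys M j : ℚ) : ℝ) := by
    intro j c h1 h2 h3
    rw [h1, h2, h3]; exact ⟨le_rfl, le_rfl⟩
  rintro (_ | ⟨t, i⟩)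
  · rw [payoff_none hσ]
    simp [xs, ys]
  · cases t
    · refine heq _ (1 / (3 * M) * 2) ?_ ?_ ?_
      · simp only [xs]; push_cast; ring
      · simp only [ys]; push_cast; ring
      · rw [payoff_z hσ, sol_sp, sol_sm]; norm_num
    · obtain ⟨i, hi⟩ := i
      cases i with
      | zero =>
        refine heq _ (1 / (6 * M)) ?_ ?_ ?_
        · simp only [xs]; push_cast; simp
        · simp only [ys]; push_cast; simp
        · rw [payoff_S hσ _ (fun k => sol_sp k) (fun k => sol_sm k), Finset.sum_eq_zero, sol_pr, PP]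
          · simp only [pow_zero, pow_one]
            field_simp; norm_num
          · intro k _
            rw [if_neg (by simp)]
      | succ m =>
        refine heq _ (1 / (3 * M)) ?_ ?_ ?_
        · simp only [xs]; rw [if_neg (by simp)]; push_cast; ring
        · simp only [ys]; rw [if_neg (by simp)]; push_cast; ring
        · have hm : m < M := by omega
          rw [payoff_S hσ _ (fun k => sol_sp k) (fun k => sol_sm k),
            Finset.sum_eq_single ⟨m, hm⟩]
          · rw [if_pos rfl, sol_pr, sol_qr, sol_pr]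
            have h5 : PP (⟨m + 1, hi⟩ : Fin M) = PP (⟨m, hm⟩ : Fin M) * PP (⟨m, hm⟩ : Fin M) := by
              unfold PP
              rw [← pow_add]
              congr 1
              simp only
              rw [pow_succ]; ring
            rw [h5]; ring
          · intro k _ hk
            rw [if_neg]
            intro h
            apply hk
            apply Fin.ext
            simp only at h ⊢
            omega
          · intro h; exact absurd (mem_univ _) h
    · refine heq _ (1 / (3 * M)) ?_ ?_ ?_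
      · simp only [xs]; push_cast; ring
      · simp only [ys]; push_cast; ring
      · rw [payoff_T hσ i (sol_sp i) (sol_sm i), sol_pr, sol_tr]; ring
    · rw [payoff_Dp hσ i (sol_sm i), sol_pr, sol_qr, sol_tr, sol_sp]
      have h1 := PP_pos i
      have h2 := PP_le_one i
      simp only [xs, ys, Rat.cast_zero, Rat.cast_one]
      constructor
      · refine mul_nonneg hc.le ?_
        nlinarith
      · have h3 : PP i * (1 / 2 + PP i / 2) + PP i / 2 +
            (1 * (PP i / 2) + (1 - 1) * (1 / 2 + PP i / 2)) ≤ 3 := by nlinarith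
        have h4 : 0 ≤ PP i * (1 / 2 + PP i / 2) + PP i / 2 +
            (1 * (PP i / 2) + (1 - 1) * (1 / 2 + PP i / 2)) := by nlinarith
        calc _ ≤ 1 / 3 * (PP i * (1 / 2 + PP i / 2) + PP i / 2 +
            (1 * (PP i / 2) + (1 - 1) * (1 / 2 + PP i / 2))) := mul_le_mul_of_nonneg_right hc1 h4
          _ ≤ 1 := by linarith
    · rw [payoff_Dm hσ i (sol_sp i), sol_pr, sol_qr, sol_tr, sol_sm]
      have h1 := PP_pos i
      have h2 := PP_le_one i
      simp only [xs, ys, Rat.cast_zero, Rat.cast_one]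
      have h4 : 0 ≤ PP i * (1 - PP i / 2) + (1 - PP i) / 2 +
            (1 * ((1 - PP i) / 2) + (1 - 1) * (1 - PP i / 2)) := by nlinarith
      constructor
      · exact mul_nonneg hc.le h4
      · have h3 : PP i * (1 - PP i / 2) + (1 - PP i) / 2 +
            (1 * ((1 - PP i) / 2) + (1 - 1) * (1 - PP i / 2)) ≤ 3 := by nlinarith
        calc _ ≤ 1 / 3 * (PP i * (1 - PP i / 2) + (1 - PP i) / 2 +
            (1 * ((1 - PP i) / 2) + (1 - 1) * (1 - PP i / 2))) := mul_le_mul_of_nonneg_right hc1 h4
          _ ≤ 1 := by linarith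

theorem dev_nonneg (hM : 0 < M) (j : Pl M) {τ : List (Vx M) → Vx M → Vx M → ℝ}
    (hτ : IsStrategy (game M hM) j τ) (h : List (Vx M)) (u v : Vx M) :
    0 ≤ trans (game M hM) (deviate (game M hM) j sol τ) h u v := by
  have hp := (game M hM).prob_nonneg u v
  unfold trans
  split
  · rename_i i hi
    unfold deviate
    by_cases hc : (game M hM).kind u = Kind.player j
    · rw [if_pos hc]; exact (hτ h u hc).1 v
    · rw [if_neg hc]; exact (sol_profile hM u i hi).1 v
  · exact_mod_cast hp
  · exact le_rfl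

theorem trans_dev_self (hM : 0 < M) {j : Pl M} {τ : List (Vx M) → Vx M → Vx M → ℝ}
    {h : List (Vx M)} {u v : Vx M} (hk : kindF u = Kind.player j) :
    trans (game M hM) (deviate (game M hM) j sol τ) h u v = τ h u v := by
  have hk' : (game M hM).kind u = Kind.player j := hk
  unfold trans
  rw [hk']
  simp only [deviate]
  rw [if_pos hk']

theorem trans_dev_other (hM : 0 < M) {i j : Pl M} (hij : i ≠ j)
    {τ : List (Vx M) → Vx M → Vx M → ℝ}
    {h : List (Vx M)} {u v : Vx M} (hk : kindF u = Kind.player i) :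
    trans (game M hM) (deviate (game M hM) j sol τ) h u v = sol u v := by
  have hk' : (game M hM).kind u = Kind.player i := hk
  unfold trans
  rw [hk']
  simp only [deviate]
  rw [if_neg]
  rw [hk']
  simpa using hij

/-- Upper bound for the payoff of a deviating player `j ≠ none`. -/
theorem dev_le (hM : 0 < M) (j : PTag × Fin M) {τ : List (Vx M) → Vx M → Vx M → ℝ}
    (hτ : IsStrategy (game M hM) (some j) τ) (r : Vx M → ℝ) (hr : r = fun v => (rewF v (some j) : ℝ))
    (hvw : ∀ k : Fin M, PP k * r (some (Tag.X, k)) + (1 - PP k) * r (some (Tag.Y, k)) ≤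
      PP k * r (some (Tag.A, k)) + (1 - PP k) * r (some (Tag.B, k))) :
    payoff (game M hM) (some j) (deviate (game M hM) (some j) sol τ) ≤
      value r PP PP PP
        (fun k => if j = (PTag.Dp, k) then
            PP k * r (some (Tag.A, k)) + (1 - PP k) * r (some (Tag.B, k))
          else PP k * r (some (Tag.X, k)) + (1 - PP k) * r (some (Tag.Y, k)))
        (fun k => if j = (PTag.Dm, k) then
            PP k * r (some (Tag.A, k)) + (1 - PP k) * r (some (Tag.B, k))
          else PP k * r (some (Tag.X, k)) + (1 - PP k) * r (some (Tag.Y, k))) none := by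
  have hr0 : ∀ v, 0 ≤ r v := fun v => by
    have := (rewF_mem v (some j)).1
    rw [hr]; simp only; exact_mod_cast this
  have hMr : (0 : ℝ) < M := by exact_mod_cast hM
  have hlin : ∀ x y z : ℝ, 0 ≤ x → x ≤ 1 → 0 ≤ y → 0 ≤ z → 0 ≤ x * y + (1 - x) * z :=
    fun x y z h1 h2 h3 h4 => add_nonneg (mul_nonneg h1 h3) (mul_nonneg (by linarith) h4)
  have hw0 : ∀ k : Fin M, 0 ≤ PP k * r (some (Tag.A, k)) + (1 - PP k) * r (some (Tag.B, k)) :=
    fun k => hlin _ _ _ (PP_pos k).le (PP_le_one k) (hr0 _) (hr0 _)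
  have hv0 : ∀ k : Fin M, 0 ≤ PP k * r (some (Tag.X, k)) + (1 - PP k) * r (some (Tag.Y, k)) :=
    fun k => hlin _ _ _ (PP_pos k).le (PP_le_one k) (hr0 _) (hr0 _)
  have hu0 : ∀ k : Fin M, 0 ≤ PP k * (PP k * r (some (Tag.A, k)) +
      (1 - PP k) * r (some (Tag.B, k))) + (1 - PP k) * r (some (Tag.C, k)) :=
    fun k => hlin _ _ _ (PP_pos k).le (PP_le_one k) (hw0 k) (hr0 _)
  refine payoff_le (game M hM) (some j) (deviate (game M hM) (some j) sol τ)
    (value r PP PP PP _ _) ?_ ?_ (fun h u v _ => dev_nonneg hM (some j) hτ h u v) ?_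
  · rintro (_ | ⟨t, k⟩)
    · simp only [value]
      refine mul_nonneg (by positivity) (Finset.sum_nonneg fun k _ => ?_)
      have h1 := hu0 k
      have h2 := hv0 k
      have h3 := hw0 k
      split_ifs <;> linarith
    · cases t
      · exact hu0 k
      · exact hw0 k
      · exact hv0 k
      · simp only [value]; split_ifs
        · exact hw0 k
        · exact hv0 k
      · simp only [value]; split_ifs
        · exact hw0 k
        · exact hv0 k
      all_goals exact hr0 _
  · rintro (_ | ⟨t, k⟩) hk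
    · simp [game, kindF] at hk
    · cases t <;> first
        | (simp [game, kindF] at hk; done)
        | (simp only [value]; rw [hr]; exact le_rfl)
  · rintro h (_ | ⟨t, k⟩) hk
    · simp only [trans, game, kindF, probF]
      rw [sum_out_none]
      simp only [value]
      rw [Finset.mul_sum]
      refine le_of_eq (Finset.sum_congr rfl fun k _ => ?_)
      push_cast
      ring
    · have hG : ∀ u : Vx M, (game M hM).out u = outF u := fun _ => rfl
      rw [hG]
      cases t
      · simp only [outF]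
        rw [Finset.sum_pair (by simp), trans_dev_other hM (i := none) (by simp) rfl,
          trans_dev_other hM (i := none) (by simp) rfl]
        simp [value, sol, two]
      · simp only [outF]
        rw [Finset.sum_pair (by simp), trans_dev_other hM (i := none) (by simp) rfl,
          trans_dev_other hM (i := none) (by simp) rfl]
        simp [value, sol, two]
      · simp only [outF]
        rw [Finset.sum_pair (by simp), trans_dev_other hM (i := none) (by simp) rfl,
          trans_dev_other hM (i := none) (by simp) rfl]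
        simp [value, sol, two]
      · simp only [outF]
        rw [Finset.sum_pair (by simp)]
        by_cases hj : j = (PTag.Dp, k)
        · have hd := hτ h (some (Tag.dp, k)) (by rw [hj]; rfl)
          obtain ⟨e1, e2, e3⟩ := dist_pair (by simp) hd
          rw [trans_dev_self hM (by rw [hj]; rfl), trans_dev_self hM (by rw [hj]; rfl), e1]
          simp only [value]
          rw [if_pos hj]
          have h1 := hvw k
          nlinarith
        · rw [trans_dev_other hM (i := some (PTag.Dp, k)) (by simpa using fun e => hj e.symm) rfl,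
            trans_dev_other hM (i := some (PTag.Dp, k)) (by simpa using fun e => hj e.symm) rfl]
          simp [value, sol, two, hj]
      · simp only [outF]
        rw [Finset.sum_pair (by simp)]
        by_cases hj : j = (PTag.Dm, k)
        · have hd := hτ h (some (Tag.dm, k)) (by rw [hj]; rfl)
          obtain ⟨e1, e2, e3⟩ := dist_pair (by simp) hd
          rw [trans_dev_self hM (by rw [hj]; rfl), trans_dev_self hM (by rw [hj]; rfl), e1]
          simp only [value]
          rw [if_pos hj]
          have h1 := hvw k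
          nlinarith
        · rw [trans_dev_other hM (i := some (PTag.Dm, k)) (by simpa using fun e => hj e.symm) rfl,
            trans_dev_other hM (i := some (PTag.Dm, k)) (by simpa using fun e => hj e.symm) rfl]
          simp [value, sol, two, hj]
      all_goals simp [game, kindF] at hk

theorem sol_NE (hM : 0 < M) : IsEpsNE (game M hM) (eps M) (sol (M := M)) := by
  have hσ := sol_profile hM
  have hMr : (0 : ℝ) < M := by exact_mod_cast hM
  have he0 : (0 : ℝ) < ((eps M : ℚ) : ℝ) := by
    unfold eps; push_cast; positivity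
  have e2 : ((eps M : ℚ) : ℝ) = 1 / (3 * M) * (1 / 2) := by
    unfold eps; push_cast; field_simp; norm_num
  refine ⟨hσ, ?_⟩
  rintro (_ | ⟨t, i⟩) τ hτ
  · have h1 : payoff (game M hM) none (deviate (game M hM) none sol τ) ≤ 0 := by
      refine payoff_le (game M hM) none _ (fun _ => 0) (fun _ => le_rfl) ?_
        (fun h u v _ => dev_nonneg hM none hτ h u v) ?_
      · intro u _
        have : rewF u none = 0 := by
          unfold rewF
          split <;> simp_all
        show ((rewF u none : ℚ) : ℝ) ≤ 0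
        rw [this]; simp
      · intro h u _
        simp
    rw [payoff_none hσ]
    linarith
  · have hnone : ∀ t', t' ≠ PTag.Dp → t' ≠ PTag.Dm →
        deviate (game M hM) (some (t', i)) sol τ = fun _ => sol := by
      intro t' h1 h2
      funext h u
      unfold deviate
      rw [if_neg]
      rcases u with _ | ⟨a, k⟩
      · simp [game, kindF]
      · cases a <;> simp [game, kindF] <;> intro h3 <;> first
          | exact absurd h3.symm h1
          | exact absurd h3.symm h2
    cases t
    · rw [hnone _ (by simp) (by simp)]; linarith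
    · rw [hnone _ (by simp) (by simp)]; linarith
    · rw [hnone _ (by simp) (by simp)]; linarith
    · -- Dp
      have h1 := dev_le hM (PTag.Dp, i) hτ _ rfl (by
        intro k
        have h1 := PP_pos k
        have h2 := PP_le_one k
        by_cases hk : k = i
        · simp [rewF, hk]
          have h1 := PP_pos i
          have h2 := PP_le_one i
          nlinarith
        · simp [rewF, hk])
      refine le_trans h1 (le_of_eq ?_)
      rw [payoff_Dp hσ i (sol_sm i), sol_pr, sol_qr, sol_tr, sol_sp, e2, ← mul_add]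
      simp only [value]
      congr 1
      rw [Finset.sum_eq_single i]
      · simp [rewF]
        ring
      · intro k _ hk
        have : ¬ ((PTag.Dp, i) = (PTag.Dp, k)) := by simp; exact fun h => hk h.symm
        simp [rewF, hk]
      · intro h; exact absurd (mem_univ _) h
    · -- Dm
      have h1 := dev_le hM (PTag.Dm, i) hτ _ rfl (by
        intro k
        have h1 := PP_pos k
        have h2 := PP_le_one k
        by_cases hk : k = i
        · simp [rewF, hk]
          have h1 := PP_pos i
          have h2 := PP_le_one i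
          nlinarith
        · simp [rewF, hk])
      refine le_trans h1 (le_of_eq ?_)
      rw [payoff_Dm hσ i (sol_sp i), sol_pr, sol_qr, sol_tr, sol_sm, e2, ← mul_add]
      simp only [value]
      congr 1
      rw [Finset.sum_eq_single i]
      · simp [rewF]
        ring
      · intro k _ hk
        have : ¬ ((PTag.Dm, i) = (PTag.Dm, k)) := by simp; exact fun h => hk h.symm
        simp [rewF, hk]
      · intro h; exact absurd (mem_univ _) h

theorem PP_fixed (k : Fin M) : ∃ z : ℕ, z ≤ 2 ^ (2 ^ M) ∧ PP k = z / 2 ^ (2 ^ M) := by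
  have hk : 2 ^ (k : ℕ) ≤ 2 ^ M := Nat.pow_le_pow_right (by norm_num) k.2.le
  refine ⟨2 ^ (2 ^ M - 2 ^ (k : ℕ)), Nat.pow_le_pow_right (by norm_num) (Nat.sub_le _ _), ?_⟩
  unfold PP
  rw [one_div, inv_pow, eq_div_iff (by positivity)]
  push_cast
  rw [inv_mul_eq_div, div_eq_iff (by positivity), ← pow_add]
  congr 1
  exact (Nat.sub_add_cancel hk).symm

theorem sol_fixed (hM : 0 < M) : HasFixedPointSize (game M hM) (2 ^ M) (sol (M := M)) := by
  have htwo : ∀ (a b v : Vx M) (p : ℝ), (∃ z : ℕ, z ≤ 2 ^ (2 ^ M) ∧ p = z / 2 ^ (2 ^ M)) →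
      ∃ z : ℕ, two a b p v = z / 2 ^ (2 ^ M) := by
    rintro a b v p ⟨z, hz, rfl⟩
    unfold two
    split_ifs
    · exact ⟨z, rfl⟩
    · refine ⟨2 ^ (2 ^ M) - z, ?_⟩
      rw [Nat.cast_sub hz]
      push_cast
      field_simp
    · exact ⟨0, by simp⟩
  have hone : ∃ z : ℕ, z ≤ 2 ^ (2 ^ M) ∧ (1 : ℝ) = z / 2 ^ (2 ^ M) :=
    ⟨2 ^ (2 ^ M), le_rfl, by push_cast; field_simp⟩
  rintro (_ | ⟨t, k⟩) j hu v _
  · simp [game, kindF] at hu
  · cases t
    · exact htwo _ _ _ _ (PP_fixed k)
    · exact htwo _ _ _ _ (PP_fixed k)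
    · exact htwo _ _ _ _ (PP_fixed k)
    · exact htwo _ _ _ _ hone
    · exact htwo _ _ _ _ hone
    all_goals simp [game, kindF] at hu

/-! ### The input size -/

theorem size_le_self (n : ℕ) : Nat.size n ≤ n := by
  rw [Nat.size_le]
  exact Nat.lt_two_pow_self

theorem bits_zero : bits 0 = 2 := by simp [bits, Nat.size_one]

theorem bits_div (a b : ℕ) (ha : 0 < a) (hb : 0 < b) : bits ((a : ℚ) / (b : ℚ)) ≤ a + b + 1 := by
  have h1 : ((a : ℚ) / (b : ℚ)).num.natAbs ≤ a := by
    have h : (Rat.divInt (a : ℤ) (b : ℤ)).num ∣ (a : ℤ) := Rat.num_dvd _ (by exact_mod_cast hb.ne')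
    have h2 : Rat.divInt (a : ℤ) (b : ℤ) = (a : ℚ) / (b : ℚ) := by
      rw [Rat.divInt_eq_div]; push_cast; rfl
    rw [h2] at h
    exact Nat.le_of_dvd ha (by simpa using Int.natAbs_dvd_natAbs.mpr h)
  have h2 : ((a : ℚ) / (b : ℚ)).den ≤ b := by
    have h : ((Rat.divInt (a : ℤ) (b : ℤ)).den : ℤ) ∣ (b : ℤ) := Rat.den_dvd _ _
    have h2 : Rat.divInt (a : ℤ) (b : ℤ) = (a : ℚ) / (b : ℚ) := by
      rw [Rat.divInt_eq_div]; push_cast; rfl
    rw [h2] at h
    exact Nat.le_of_dvd hb (by exact_mod_cast h)
  unfold bits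
  have h3 := size_le_self ((a : ℚ) / (b : ℚ)).num.natAbs
  have h4 := size_le_self ((a : ℚ) / (b : ℚ)).den
  omega

theorem bits_div' {q : ℚ} {a b : ℕ} (hq : q = (a : ℚ) / (b : ℚ)) (ha : 0 < a) (hb : 0 < b)
    {c : ℕ} (hc : a + b + 1 ≤ c) : bits q ≤ c := by
  rw [hq]; exact le_trans (bits_div a b ha hb) hc

theorem bits_prob (hM : 0 < M) (u v : Vx M) : bits (probF M u v) ≤ 8 * M := by
  rcases u with _ | u
  · exact bits_div' (a := 1) (b := 3 * M) (by simp [probF]) one_pos (by omega) (by omega)
  · simp only [probF, bits_zero]; omega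

theorem bits_rew (hM : 0 < M) (v : Vx M) (j : Pl M) : bits (rewF v j) ≤ 8 * M := by
  have h0 : bits 0 ≤ 8 * M := by rw [bits_zero]; omega
  have h1 : bits 1 ≤ 8 * M := bits_div' (a := 1) (b := 1) (by norm_num) one_pos one_pos (by omega)
  have h2 : bits (1 / 2) ≤ 8 * M :=
    bits_div' (a := 1) (b := 2) (by norm_num) one_pos two_pos (by omega)
  unfold rewF
  split <;> (try split_ifs) <;> assumption

theorem bits_xs (hM : 0 < M) (j : Pl M) : bits (xs M j) ≤ 8 * M := by
  have h0 : bits 0 ≤ 8 * M := by rw [bits_zero]; omega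
  rcases j with _ | ⟨t, i⟩
  · exact h0
  · cases t
    · exact bits_div' (a := 2) (b := 3 * M) (by simp [xs]) two_pos (by omega) (by omega)
    · simp only [xs]
      split_ifs
      · exact bits_div' (a := 1) (b := 6 * M) (by simp) one_pos (by omega) (by omega)
      · exact bits_div' (a := 1) (b := 3 * M) (by simp) one_pos (by omega) (by omega)
    · exact bits_div' (a := 1) (b := 3 * M) (by simp [xs]) one_pos (by omega) (by omega)
    · exact h0
    · exact h0

theorem bits_ys (hM : 0 < M) (j : Pl M) : bits (ys M j) ≤ 8 * M := by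
  have h1 : bits 1 ≤ 8 * M := bits_div' (a := 1) (b := 1) (by norm_num) one_pos one_pos (by omega)
  rcases j with _ | ⟨t, i⟩
  · exact h1
  · cases t
    · exact bits_div' (a := 2) (b := 3 * M) (by simp [ys]) two_pos (by omega) (by omega)
    · simp only [ys]
      split_ifs
      · exact bits_div' (a := 1) (b := 6 * M) (by simp) one_pos (by omega) (by omega)
      · exact bits_div' (a := 1) (b := 3 * M) (by simp) one_pos (by omega) (by omega)
    · exact bits_div' (a := 1) (b := 3 * M) (by simp [ys]) one_pos (by omega) (by omega)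
    · exact h1
    · exact h1

theorem bits_eps (hM : 0 < M) : bits (eps M) ≤ 8 * M :=
  bits_div' (a := 1) (b := 6 * M) (by simp [eps]) one_pos (by omega) (by omega)

theorem card_Vx : Fintype.card (Vx M) = 10 * M + 1 := by
  rw [Fintype.card_option, Fintype.card_prod, card_tag, Fintype.card_fin]

theorem card_Pl : Fintype.card (Pl M) = 5 * M + 1 := by
  rw [Fintype.card_option, Fintype.card_prod, card_ptag, Fintype.card_fin]

theorem size_le (hM : 0 < M) :
    inputSize (game M hM) (xs M) (ys M) (eps M) ≤ 2000 * M ^ 3 := by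
  have h1 : ∑ u : Vx M, ∑ v : Vx M, bits ((game M hM).prob u v) ≤
      (10 * M + 1) * ((10 * M + 1) * (8 * M)) := by
    calc ∑ u : Vx M, ∑ v : Vx M, bits ((game M hM).prob u v)
        ≤ ∑ _u : Vx M, ∑ _v : Vx M, 8 * M :=
          Finset.sum_le_sum fun u _ => Finset.sum_le_sum fun v _ => bits_prob hM u v
      _ = _ := by simp [card_tag]
  have h2 : ∑ v : Vx M, ∑ i : Pl M, bits ((game M hM).reward v i) ≤
      (10 * M + 1) * ((5 * M + 1) * (8 * M)) := by
    calc ∑ v : Vx M, ∑ i : Pl M, bits ((game M hM).reward v i)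
        ≤ ∑ _u : Vx M, ∑ _v : Pl M, 8 * M :=
          Finset.sum_le_sum fun u _ => Finset.sum_le_sum fun v _ => bits_rew hM u v
      _ = _ := by simp [card_tag, card_ptag]
  have h3 : ∑ i : Pl M, (bits (xs M i) + bits (ys M i)) ≤ (5 * M + 1) * (16 * M) := by
    calc ∑ i : Pl M, (bits (xs M i) + bits (ys M i)) ≤ ∑ _i : Pl M, 16 * M :=
          Finset.sum_le_sum fun i _ => by
            have := bits_xs hM i
            have := bits_ys hM i
            omega
      _ = _ := by simp [card_ptag]
  have h4 := bits_eps hM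
  unfold inputSize
  rw [card_Vx, card_Pl]
  have hsq : M ≤ M ^ 2 := by nlinarith
  have hcu : M ^ 2 ≤ M ^ 3 := Nat.pow_le_pow_right hM (by norm_num)
  have hcu' : M ≤ M ^ 3 := le_trans hsq hcu
  have h1' : 1 ≤ M ^ 3 := Nat.one_le_pow _ _ hM
  calc _ ≤ 5 * M + 1 + (10 * M + 1) + (10 * M + 1) * (10 * M + 1) +
        (10 * M + 1) * ((10 * M + 1) * (8 * M)) + (10 * M + 1) * ((5 * M + 1) * (8 * M)) +
        (5 * M + 1) * (16 * M) + 8 * M := by gcongr
    _ = 1200 * M ^ 3 + (100 + 160 + 40 + 80 + 80) * M ^ 2 + (5 + 10 + 20 + 8 + 8 + 16 + 8) * M + 3 := by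
        ring
    _ ≤ 2000 * M ^ 3 := by nlinarith

end Instance

/-! ## The main theorem -/

theorem poly_bound (P : Polynomial ℕ) : ∃ c k : ℕ, ∀ x : ℕ, 1 ≤ x → P.eval x ≤ c * x ^ k := by
  induction P using Polynomial.induction_on' with
  | add p q hp hq =>
    obtain ⟨c1, k1, h1⟩ := hp
    obtain ⟨c2, k2, h2⟩ := hq
    refine ⟨c1 + c2, max k1 k2, fun x hx => ?_⟩
    rw [Polynomial.eval_add, add_mul]
    refine add_le_add (le_trans (h1 x hx) ?_) (le_trans (h2 x hx) ?_)
    · exact Nat.mul_le_mul_left _ (Nat.pow_le_pow_right hx (le_max_left _ _))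
    · exact Nat.mul_le_mul_left _ (Nat.pow_le_pow_right hx (le_max_right _ _))
  | monomial n a =>
    refine ⟨a, n, fun x _ => ?_⟩
    rw [Polynomial.eval_monomial]

theorem eval_mono (P : Polynomial ℕ) {x y : ℕ} (h : x ≤ y) : P.eval x ≤ P.eval y := by
  induction P using Polynomial.induction_on' with
  | add p q hp hq =>
    rw [Polynomial.eval_add, Polynomial.eval_add]
    exact add_le_add hp hq
  | monomial n a =>
    rw [Polynomial.eval_monomial, Polynomial.eval_monomial]
    exact Nat.mul_le_mul_left _ (Nat.pow_le_pow_left h n)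

theorem exists_large (P : Polynomial ℕ) : ∃ M : ℕ, 0 < M ∧ P.eval (2000 * M ^ 3) < 2 ^ (M - 1) := by
  obtain ⟨c, k, h⟩ := poly_bound P
  have hlim : Filter.Tendsto (fun n : ℕ => (n : ℝ) ^ (3 * k) / (2 : ℝ) ^ n) Filter.atTop (nhds 0) :=
    tendsto_pow_const_div_const_pow_of_one_lt (3 * k) (by norm_num)
  have hpos : (0 : ℝ) < 1 / (2 * (c * 2000 ^ k + 1)) := by positivity
  obtain ⟨n₀, hn₀⟩ := Filter.eventually_atTop.mp (hlim.eventually (gt_mem_nhds hpos))
  set M : ℕ := max n₀ 1 with hM
  have hM1 : 1 ≤ M := le_max_right _ _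
  refine ⟨M, hM1, ?_⟩
  have h1 := hn₀ M (le_max_left _ _)
  have h2 : P.eval (2000 * M ^ 3) ≤ c * (2000 * M ^ 3) ^ k :=
    h _ (by have := Nat.one_le_pow 3 M hM1; omega)
  have h3 : (M : ℝ) ^ (3 * k) * (2 * (c * 2000 ^ k + 1)) < 2 ^ M := by
    rw [div_lt_div_iff₀ (by positivity) (by positivity), one_mul] at h1
    exact h1
  have h4 : (2 : ℝ) ^ M = 2 * 2 ^ (M - 1) := by
    rw [← pow_succ']; congr 1; omega
  have h5 : ((c * (2000 * M ^ 3) ^ k : ℕ) : ℝ) < 2 ^ (M - 1) := by
    have h6 : (M : ℝ) ^ (3 * k) * (c * 2000 ^ k + 1) < 2 ^ (M - 1) := by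
      rw [h4] at h3; linarith
    push_cast
    rw [mul_pow, ← pow_mul]
    have h7 : (0 : ℝ) ≤ (M : ℝ) ^ (3 * k) := by positivity
    nlinarith
  have h6 : c * (2000 * M ^ 3) ^ k < 2 ^ (M - 1) := by exact_mod_cast h5
  omega

/-- **Constrained stationary `ε`-Nash equilibria of polynomial fixed-point size need not exist.**
For every polynomial `P` there is a game with constraints `x, y` and `ε > 0` which has a stationary
`ε`-Nash equilibrium satisfying the constraints all of whose probabilities are dyadic, but every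
such equilibrium uses a positive probability smaller than `2^(-P(N))`, `N` the input size; in
particular none has fixed-point size at most `P(N)`. -/
theorem result : ∀ P : Polynomial ℕ, ∃ (I V : Type) (_ : Fintype I) (_ : Fintype V)
    (G : Game I V) (x y : I → ℚ) (ε : ℚ), 0 < ε ∧
    (∃ (σ : V → V → ℝ) (L : ℕ), IsEpsNE G ε σ ∧ Satisfies G x y σ ∧ HasFixedPointSize G L σ) ∧
    (∀ σ : V → V → ℝ, IsEpsNE G ε σ → Satisfies G x y σ →
      ∃ u i v, G.kind u = Kind.player i ∧ v ∈ G.out u ∧ 0 < σ u v ∧
        σ u v < (1 / 2 : ℝ) ^ P.eval (inputSize G x y ε)) ∧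
    ¬ ∃ (σ : V → V → ℝ) (L : ℕ), L ≤ P.eval (inputSize G x y ε) ∧ IsEpsNE G ε σ ∧
      Satisfies G x y σ ∧ HasFixedPointSize G L σ := by
  intro P
  obtain ⟨M, hM, hlarge⟩ := exists_large P
  have hN : P.eval (inputSize (game M hM) (xs M) (ys M) (eps M)) < 2 ^ (M - 1) :=
    lt_of_le_of_lt (eval_mono P (size_le hM)) hlarge
  have hforced : ∀ σ : Vx M → Vx M → ℝ, IsEpsNE (game M hM) (eps M) σ →
      Satisfies (game M hM) (xs M) (ys M) σ →
      ∃ u i v, (game M hM).kind u = Kind.player i ∧ v ∈ (game M hM).out u ∧ 0 < σ u v ∧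
        σ u v < (1 / 2 : ℝ) ^ P.eval (inputSize (game M hM) (xs M) (ys M) (eps M)) := by
    intro σ h1 h2
    have h3 := forced h1 h2 ⟨M - 1, by omega⟩
    refine ⟨some (Tag.u, ⟨M - 1, by omega⟩), none, some (Tag.w, ⟨M - 1, by omega⟩), rfl, ?_, ?_, ?_⟩
    · simp [game, outF]
    · have : σ (some (Tag.u, ⟨M - 1, by omega⟩)) (some (Tag.w, ⟨M - 1, by omega⟩)) =
          (1 / 2 : ℝ) ^ (2 ^ (M - 1)) := h3
      rw [this]; positivity
    · have : σ (some (Tag.u, ⟨M - 1, by omega⟩)) (some (Tag.w, ⟨M - 1, by omega⟩)) =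
          (1 / 2 : ℝ) ^ (2 ^ (M - 1)) := h3
      rw [this]
      exact pow_lt_pow_right_of_lt_one₀ (by norm_num) (by norm_num) hN
  refine ⟨Pl M, Vx M, inferInstance, inferInstance, game M hM, xs M, ys M, eps M, ?_, ?_,
    hforced, ?_⟩
  · unfold eps; positivity
  · exact ⟨sol, 2 ^ M, sol_NE hM, sol_satisfies hM, sol_fixed hM⟩
  · rintro ⟨σ, L, hL, h1, h2, h3⟩
    obtain ⟨u, i, v, hk, hv, hpos, hlt⟩ := hforced σ h1 h2
    obtain ⟨z, hz⟩ := h3 u i hk v hv
    have hz1 : 1 ≤ z := by
      rcases Nat.eq_zero_or_pos z with h | h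
      · rw [hz, h] at hpos; simp at hpos
      · exact h
    have hz2 : (1 : ℝ) ≤ z := by exact_mod_cast hz1
    have h4 : (1 / 2 : ℝ) ^ L ≤ σ u v := by
      rw [hz, one_div, inv_pow, inv_eq_one_div]
      gcongr
    have h5 : (1 / 2 : ℝ) ^ P.eval (inputSize (game M hM) (xs M) (ys M) (eps M)) ≤ (1 / 2 : ℝ) ^ L :=
      pow_le_pow_of_le_one (by norm_num) (by norm_num) hL
    linarith

end Pool.Agent.Results.MP_3b7dc8_lc.TinyProbability
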